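import Pool.Agent.H300R2.BH.Chow

/-!
Sums of bounded Siegel-Walfisz functions along almost all polynomials `a + R + σ d X^j` of a thin
box.
-/

namespace Pool.Agent.W81.FC

open Finset Polynomial Filter
open Pool.Agent.H469R2.NK (e norm_e)
open Pool.Agent.H442R2.EHI (norm_add_sq_le evt_log_pow evt_log_ge)
open Pool.Agent.H300R2.BH

open Classical in
/-- mean square, absolute values of the polynomial -/
theorem thin_abs (j : ℕ) (hj : 1 ≤ j) (ε : ℝ) (hε : 0 < ε) (C : ℝ) (U : ℕ) (g : ℕ → ℂ)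
    (hg : ∀ n, ‖g n‖ ≤ 1)
    (hF : ∀ E1 E3 : ℕ, ∃ x0 : ℕ, ∀ x : ℕ, x0 ≤ x → ∀ q : ℕ, 1 ≤ q → (q : ℝ) ≤ Real.log x ^ E1 →
      ∀ b : ℤ, ∀ β : ℝ, |β - (b : ℝ) / (q : ℝ)| ≤ Real.log x ^ E3 / x →
      ‖∑ n ∈ Icc 1 x, g n * e (n * β)‖ ≤ x / Real.log x ^ (2 * E3)) :
    ∃ B x0 : ℕ, ∀ x : ℕ, x0 ≤ x → ∀ (K D A a0 : ℕ) (R : ℤ[X]) (σ : ℤ), Box j x K D A a0 σ →
    (x : ℝ) ≤ C * D * (K : ℝ) ^ j → (x : ℝ) ^ ε ≤ K →
    x * Real.log x ^ B ≤ (A : ℝ) * D →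
    (∀ k ∈ Icc 1 K, |((R.eval (k : ℤ) : ℤ) : ℝ)| ≤ (K : ℝ) ^ j / Real.log x ^ B) →
    ((((Ioc a0 (a0 + A)) ×ˢ (Ioc D (2 * D))).filter (fun ad : ℕ × ℕ =>
      (K : ℝ) / Real.log x ^ U <
        ‖∑ k ∈ Icc 1 K, g ((FF R j σ ad.1 ad.2).eval (k : ℤ)).natAbs‖)).card : ℝ) ≤
      A * D / Real.log x ^ U := by
  obtain ⟨B1, x1, hm⟩ := mean_small j hj ε hε 1 (3 * U + 2) g hg hF
  have hev : ∀ᶠ x : ℕ in atTop, x1 ≤ x ∧ 3 ≤ x ∧ 8 ≤ Real.log x ∧ C ≤ Real.log x ∧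
      Real.log x ^ (U + 2) ≤ (x : ℝ) ^ ε := by
    filter_upwards [eventually_ge_atTop x1, eventually_ge_atTop 3, evt_log_ge 8, evt_log_ge C,
      evt_log_pow (U + 2) ε hε] with x h1 h2 h3 h4 h5
    exact ⟨h1, h2, h3, h4, h5⟩
  obtain ⟨x0, hx0⟩ := eventually_atTop.mp hev
  refine ⟨B1 + j * (U + 2), x0, fun x hx K D A a0 R σ hbox hC hK hAD hR => ?_⟩
  obtain ⟨hx1, hx3, hL8, hLC, hLε⟩ := hx0 x hx
  set L := Real.log x with hLdef
  have hL0 : 0 < L := by linarith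
  have hL1 : 1 ≤ L := by linarith
  have hLp0 : ∀ n : ℕ, 0 < L ^ n := fun n => by positivity
  have hLp : ∀ n : ℕ, 1 ≤ L ^ n := fun n => one_le_pow₀ hL1
  have hLmono : ∀ m n : ℕ, m ≤ n → L ^ m ≤ L ^ n := fun m n h => pow_le_pow_right₀ hL1 h
  have hxr : (3:ℝ) ≤ x := by exact_mod_cast hx3
  have hx0' : (0:ℝ) < x := by linarith
  have hLK : L ^ (U + 2) ≤ K := hLε.trans hK
  have hK1 : (1:ℝ) ≤ K := (hLp _).trans hLK
  have hK0 : (0:ℝ) < K := by linarith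
  have hKj : (0:ℝ) < (K:ℝ) ^ j := by positivity
  have hAx : (A : ℝ) ≤ x := by
    have := box_haA hbox
    exact_mod_cast (by omega : A ≤ x)
  have hA0 : (0:ℝ) ≤ A := Nat.cast_nonneg _
  have hDr : (0:ℝ) ≤ D := Nat.cast_nonneg _
  have hB1B : L ^ B1 ≤ L ^ (B1 + j * (U + 2)) := hLmono _ _ (by omega)
  have hxDK : (x : ℝ) ≤ D * (K : ℝ) ^ j * L ^ 1 := by
    calc (x:ℝ) ≤ C * D * (K : ℝ) ^ j := hC
      _ = D * (K:ℝ) ^ j * C := by ring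
      _ ≤ D * (K:ℝ) ^ j * L ^ 1 := by
        rw [pow_one]
        apply mul_le_mul_of_nonneg_left hLC (by positivity)
  have hmean := hm x hx1 K D A a0 R σ hbox hxDK hK
    ((mul_le_mul_of_nonneg_left hB1B hx0'.le).trans hAD)
    (fun k hk => (hR k hk).trans (div_le_div_of_nonneg_left hKj.le (hLp0 _) hB1B))
  rw [← hLdef] at hmean
  -- the part with nonpositive values
  have hsmall : ∀ a ∈ Ioc a0 (a0 + A), ∀ d ∈ Ioc D (2 * D),
      ‖∑ k ∈ Icc 1 K, g ((FF R j σ a d).eval (k : ℤ)).natAbs‖ ≤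
      ‖∑ k ∈ Icc 1 K, (if 1 ≤ (FF R j σ a d).eval (k : ℤ) then
        g ((FF R j σ a d).eval (k : ℤ)).toNat else 0)‖ + K / L ^ (U + 2) := by
    intro a ha d hd
    have e1 : ∑ k ∈ Icc 1 K, g ((FF R j σ a d).eval (k : ℤ)).natAbs =
        ∑ k ∈ Icc 1 K, (if 1 ≤ (FF R j σ a d).eval (k : ℤ) then
        g ((FF R j σ a d).eval (k : ℤ)).toNat else 0) +
        ∑ k ∈ (Icc 1 K).filter (fun k : ℕ => ¬ 1 ≤ (FF R j σ a d).eval (k : ℤ)),
          g ((FF R j σ a d).eval (k : ℤ)).natAbs := by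
      rw [sum_filter, ← sum_add_distrib]
      refine sum_congr rfl fun k _ => ?_
      by_cases h : 1 ≤ (FF R j σ a d).eval (k : ℤ)
      · rw [if_pos h, if_neg (by push Not; exact h), add_zero]
        congr 1
        omega
      · rw [if_neg h, if_pos h, zero_add]
    rw [e1]
    refine (norm_add_le _ _).trans ?_
    refine add_le_add le_rfl ?_
    refine (norm_sum_le _ _).trans ?_
    have h1 : ∀ k ∈ (Icc 1 K).filter (fun k : ℕ => ¬ 1 ≤ (FF R j σ a d).eval (k : ℤ)),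
        k ∈ Icc 1 ⌊(K:ℝ) / L ^ (U + 2)⌋₊ := by
      intro k hk
      rw [mem_filter, mem_Icc] at hk
      obtain ⟨⟨hk1, hk2⟩, hk3⟩ := hk
      rw [mem_Icc]
      refine ⟨hk1, ?_⟩
      by_contra hlt
      push Not at hlt
      apply hk3
      have hRk := hR k (mem_Icc.mpr ⟨hk1, hk2⟩)
      have hkr : (K:ℝ) / L ^ (U + 2) < k := (Nat.floor_lt (by positivity)).mp hlt
      -- `d k ^ j > |R k|`
      have hdk : |((R.eval (k : ℤ) : ℤ) : ℝ)| < (k : ℝ) ^ j := by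
        refine lt_of_le_of_lt hRk ?_
        calc (K : ℝ) ^ j / L ^ (B1 + j * (U + 2)) ≤ (K : ℝ) ^ j / L ^ (j * (U + 2)) := by
              apply div_le_div_of_nonneg_left hKj.le (hLp0 _) (hLmono _ _ (by omega))
          _ = ((K:ℝ) / L ^ (U + 2)) ^ j := by
              rw [div_pow, ← pow_mul, mul_comm (U + 2) j]
          _ < (k : ℝ) ^ j := pow_lt_pow_left₀ hkr (by positivity) (by omega)
      have hdk' : |R.eval (k : ℤ)| < (k : ℤ) ^ j := by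
        have : ((|R.eval (k : ℤ)| : ℤ) : ℝ) < (((k : ℤ) ^ j : ℤ) : ℝ) := by
          push_cast
          exact hdk
        exact_mod_cast this
      rw [mem_Ioc] at ha hd
      rw [FF_eval]
      have habs := abs_lt.mp hdk'
      have hk0 : (0:ℤ) ≤ (k : ℤ) ^ j := by positivity
      rcases hbox with ⟨rfl, h3⟩ | ⟨rfl, h3, h4⟩
      · have h5 : (k : ℤ) ^ j ≤ (d : ℤ) * (k : ℤ) ^ j := by
          have : (1:ℤ) ≤ d := by omega
          nlinarith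
        have : (a : ℤ) + R.eval (k : ℤ) + 1 * d * (k : ℤ) ^ j =
          a + R.eval (k : ℤ) + d * (k : ℤ) ^ j := by ring
        rw [this]
        have : (1:ℤ) ≤ a := by omega
        linarith [habs.1, habs.2]
      · have h5 : k ^ j ≤ K ^ j := Nat.pow_le_pow_left hk2 j
        have h6 : d * k ^ j ≤ 2 * D * K ^ j := Nat.mul_le_mul hd.2 h5
        have h6' : ((d : ℤ) * (k : ℤ) ^ j) ≤ 2 * D * ((K ^ j : ℕ) : ℤ) := by exact_mod_cast h6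
        have h5' : (k : ℤ) ^ j ≤ ((K ^ j : ℕ) : ℤ) := by exact_mod_cast h5
        have h3' : 2 * (D : ℤ) * ((K ^ j : ℕ) : ℤ) + ((K ^ j : ℕ) : ℤ) ≤ a0 := by exact_mod_cast h3
        have : (a : ℤ) + R.eval (k : ℤ) + -1 * d * (k : ℤ) ^ j =
          a + R.eval (k : ℤ) - d * (k : ℤ) ^ j := by ring
        rw [this]
        have ha1 : (a0 : ℤ) + 1 ≤ a := by exact_mod_cast ha.1
        linarith [habs.1, habs.2]
    calc ∑ k ∈ (Icc 1 K).filter (fun k : ℕ => ¬ 1 ≤ (FF R j σ a d).eval (k : ℤ)),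
          ‖g ((FF R j σ a d).eval (k : ℤ)).natAbs‖
        ≤ ∑ k ∈ (Icc 1 K).filter (fun k : ℕ => ¬ 1 ≤ (FF R j σ a d).eval (k : ℤ)), (1:ℝ) :=
          sum_le_sum fun k _ => hg _
      _ ≤ ∑ k ∈ Icc 1 ⌊(K:ℝ) / L ^ (U + 2)⌋₊, (1:ℝ) :=
          sum_le_sum_of_subset_of_nonneg (fun k hk => h1 k hk) (fun _ _ _ => by norm_num)
      _ = (⌊(K:ℝ) / L ^ (U + 2)⌋₊ : ℝ) := by simp
      _ ≤ K / L ^ (U + 2) := Nat.floor_le (by positivity)
  -- Chebyshev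
  set T := (Ioc a0 (a0 + A)) ×ˢ (Ioc D (2 * D)) with hT
  set G : ℕ × ℕ → ℝ := fun ad => ‖∑ k ∈ Icc 1 K, (if 1 ≤ (FF R j σ ad.1 ad.2).eval (k : ℤ) then
        g ((FF R j σ ad.1 ad.2).eval (k : ℤ)).toNat else 0)‖ with hG
  have hGsum : ∑ ad ∈ T, G ad ^ 2 ≤ A * D * (K : ℝ) ^ 2 / L ^ (3 * U + 2) := by
    rw [hT, sum_product]
    exact hmean
  set Bd := T.filter (fun ad : ℕ × ℕ => (K : ℝ) / L ^ U <
        ‖∑ k ∈ Icc 1 K, g ((FF R j σ ad.1 ad.2).eval (k : ℤ)).natAbs‖) with hBd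
  have hbig : ∀ ad ∈ Bd, ((K : ℝ) / L ^ (U + 1)) ^ 2 ≤ G ad ^ 2 := by
    intro ad had
    rw [hBd, mem_filter, hT, mem_product] at had
    obtain ⟨⟨ha, hd⟩, hlt⟩ := had
    have h1 := hsmall ad.1 ha ad.2 hd
    have h2 : (K:ℝ) / L ^ U - K / L ^ (U + 2) ≤ G ad := by
      rw [hG]
      linarith
    have h3 : (K:ℝ) / L ^ (U + 1) ≤ K / L ^ U - K / L ^ (U + 2) := by
      have e1 : (K:ℝ) / L ^ (U + 1) = (K / L ^ U) * (1 / L) := by
        rw [pow_succ]; field_simp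
      have e2 : (K:ℝ) / L ^ (U + 2) = (K / L ^ U) * (1 / L ^ 2) := by
        rw [pow_add]; field_simp
      rw [e1, e2]
      have e3 : (0:ℝ) ≤ K / L ^ U := by positivity
      have e4 : 1 / L ≤ 1 / 8 := one_div_le_one_div_of_le (by norm_num) hL8
      have e5 : 1 / L ^ 2 ≤ 1 / 8 := one_div_le_one_div_of_le (by norm_num) (by nlinarith)
      nlinarith
    exact pow_le_pow_left₀ (by positivity) (h3.trans h2) 2
  have hcnt : (Bd.card : ℝ) * ((K : ℝ) / L ^ (U + 1)) ^ 2 ≤ A * D * (K : ℝ) ^ 2 / L ^ (3 * U + 2) := by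
    calc (Bd.card : ℝ) * ((K : ℝ) / L ^ (U + 1)) ^ 2 = ∑ ad ∈ Bd, ((K : ℝ) / L ^ (U + 1)) ^ 2 := by
          rw [sum_const, nsmul_eq_mul]
      _ ≤ ∑ ad ∈ Bd, G ad ^ 2 := sum_le_sum hbig
      _ ≤ ∑ ad ∈ T, G ad ^ 2 :=
          sum_le_sum_of_subset_of_nonneg (filter_subset _ _) (fun _ _ _ => by positivity)
      _ ≤ _ := hGsum
  have hsq : (0:ℝ) < ((K : ℝ) / L ^ (U + 1)) ^ 2 := by positivity
  rw [← le_div_iff₀ hsq] at hcnt
  refine hcnt.trans (le_of_eq ?_)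
  rw [show 3 * U + 2 = U + (U + 1) * 2 by ring, pow_add, div_pow, ← pow_mul]
  field_simp

end Pool.Agent.W81.FC
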